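import Pool.Agent.Q99.RD.Main

/-!
# The reciprocal Dunford-Pettis property does not imply its quantitative form
-/

set_option autoImplicit false

namespace Pool.Agent.Results.MP_2f19c2_an.NoQuantitativeRDPP

open Q99.RD

/-- For real and for complex scalars there is a Banach space `X` with the reciprocal Dunford-Pettis property (every
completely continuous operator from `X` to a Banach space is weakly compact) which does not have the quantitative
reciprocal Dunford-Pettis property: for every constant `C` there are a Banach space `Y` and an operator `T` from `X`
to `Y` with `wk T > C * cc T`. -/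
theorem result (𝕜 : Type) [RCLike 𝕜] :
    ∃ (X : Type) (_ : NormedAddCommGroup X) (_ : NormedSpace 𝕜 X),
      CompleteSpace X ∧ RDPP 𝕜 X ∧ ¬ QuantitativeRDPP 𝕜 X :=
  ⟨XX 𝕜, inferInstance, inferInstance, inferInstance, rdpp, not_quantitative⟩

end Pool.Agent.Results.MP_2f19c2_an.NoQuantitativeRDPP
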